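import Pool.Agent.J6H38.DIR.Stm
import Pool.Agent.J6H38.NC.Ray

/-!
# Module RAYR: a ray directed in a given face
-/

set_option autoImplicit false

open MeasureTheory ProbabilityTheory Filter Topology
open scoped ENNReal

namespace Pool.Agent.J6H38.DIR

open Pool.Agent.J6H99.NC Pool.Agent.J6H38.NC

variable {e : ℕ}

/-- a ray whose points are on minimal paths to half-spaces of good levels -/
lemma exists_ray_gen {q : Par} {ω : Om e} (h : Far q ω) (c y : E e) (hy : 0 < dt c y)
    (Q : ℕ → ℕ → Prop) (hQ : ∀ n, ∃ᶠ t : ℕ in atTop, Q n t) :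
    ∃ x : ℕ → V e, Ray q ω x ∧ ∀ k N : ℕ, ∃ n t : ℕ, N ≤ n ∧ Q n t ∧
      T q ω 0 (x k) + TH q ω c (x k) t ≤ TH q ω c 0 t := by
  have h1 : ∀ J : ℕ, ∃ (t : ℕ) (L : ℕ) (x : ℕ → V e), Q J t ∧ J ≤ L ∧
      Seg q ω c t L x := by
    intro J
    obtain ⟨N, hN⟩ := exists_nat_gt (nr c * J)
    obtain ⟨t, ht1, ht2⟩ := ((hQ J).and_eventually (eventually_ge_atTop N)).exists
    obtain ⟨L, x, hx⟩ := exists_Seg h c y hy t
    refine ⟨t, L, x, ht1, ?_, hx⟩
    by_contra hlt
    push Not at hlt
    have h2 := hx.long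
    have h3 : (L : ℝ) ≤ J := by exact_mod_cast hlt.le
    have h4 := mul_le_mul_of_nonneg_left h3 (nr_nonneg c)
    have h5 : (N : ℝ) ≤ t := by exact_mod_cast ht2
    linarith
  choose t L X hQt hJL hX using h1
  obtain ⟨x, hx⟩ := konig L X hJL fun J k hk => (hX J).n1_le k hk
  refine ⟨x, ⟨?_, ?_, ?_, ?_⟩, ?_⟩
  · obtain ⟨J, _, hJ⟩ := hx 0
    rw [← hJ 0 le_rfl, (hX J).zero]
  · intro n
    obtain ⟨J, hnJ, hJ⟩ := hx (n + 1)
    rw [← hJ n (by omega), ← hJ (n + 1) le_rfl]
    exact (hX J).adj n (by have := hJL J; omega)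
  · intro a b hab
    obtain ⟨J, hnJ, hJ⟩ := hx (max a b)
    rw [← hJ a (le_max_left _ _), ← hJ b (le_max_right _ _)] at hab
    have h2 := hJL J
    exact (hX J).inj a b (by omega) (by omega) hab
  · intro a b hab
    obtain ⟨J, hnJ, hJ⟩ := hx (b + 1)
    have h2 := hJL J
    rw [← hJ a (by omega), ← hJ b (by omega), (hX J).geo a b hab (by omega)]
    refine Finset.sum_congr rfl fun k hk => ?_
    rw [Finset.mem_Ico] at hk
    rw [← hJ k (by omega), ← hJ (k + 1) (by omega)]
  · intro k N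
    obtain ⟨J, hnJ, hJ⟩ := hx (max k N)
    have h2 := hJL J
    have h3 := (hX J).good k (by omega)
    rw [hJ k (le_max_left _ _)] at h3
    exact ⟨J, t J, (le_max_right _ _).trans hnJ, hQt J, h3⟩

lemma ray_n1_tendsto {x : ℕ → V e} (hx : Function.Injective x) :
    Tendsto (fun k => n1 (x k)) atTop atTop := by
  rw [tendsto_atTop]
  intro b
  have h1 : (x ⁻¹' {y : V e | n1 y ≤ b}).Finite := (ball_finite b).preimage hx.injOn
  have h2 := h1.compl_mem_cofinite
  rw [Nat.cofinite_eq_atTop] at h2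
  filter_upwards [h2] with k hk
  have : ¬ n1 (x k) ≤ b := hk
  omega

/-- the least `J` from which on the tail of the geometric series is small -/
lemma exists_tail {θ C ε : ℝ} (hθ : 0 < θ) (hC : 0 ≤ C) (hε : 0 < ε) :
    ∃ J : ℕ, ∀ n : ℕ, ∑ j ∈ Finset.range n, C * (((2 ^ (J + j) : ℕ) : ℝ)) ^ (-θ) ≤ ε := by
  set r : ℝ := (2 : ℝ) ^ (-θ) with hr
  have hr0 : 0 < r := Real.rpow_pos_of_pos two_pos _
  have hr1 : r < 1 := Real.rpow_lt_one_of_one_lt_of_neg one_lt_two (by linarith)
  have hpow : ∀ k : ℕ, (((2 ^ k : ℕ) : ℝ)) ^ (-θ) = r ^ k := by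
    intro k
    push_cast
    rw [hr, ← Real.rpow_natCast, ← Real.rpow_natCast, ← Real.rpow_mul two_pos.le,
      ← Real.rpow_mul two_pos.le, mul_comm]
  have h1r : 0 < 1 - r := by linarith
  have hlim : Tendsto (fun J : ℕ => C * r ^ J / (1 - r)) atTop (𝓝 0) := by
    have := (tendsto_pow_atTop_nhds_zero_of_lt_one hr0.le hr1).const_mul C
    have h2 := this.div_const (1 - r)
    rwa [mul_zero, zero_div] at h2
  obtain ⟨J, hJ⟩ := (hlim.eventually (eventually_le_nhds hε)).exists
  refine ⟨J, fun n => ?_⟩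
  have h3 : ∑ j ∈ Finset.range n, C * (((2 ^ (J + j) : ℕ) : ℝ)) ^ (-θ) =
      C * r ^ J * ∑ j ∈ Finset.range n, r ^ j := by
    rw [Finset.mul_sum]
    refine Finset.sum_congr rfl fun j _ => ?_
    rw [hpow, pow_add]; ring
  rw [h3]
  have h4 : ∑ j ∈ Finset.range n, r ^ j ≤ 1 / (1 - r) := by
    rw [geom_sum_eq hr1.ne, le_div_iff₀ h1r]
    have h5 : (r ^ n - 1) / (r - 1) * (1 - r) = 1 - r ^ n := by
      have : r - 1 ≠ 0 := by linarith
      field_simp
      ring
    rw [h5]
    have := pow_pos hr0 n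
    linarith
  calc C * r ^ J * ∑ j ∈ Finset.range n, r ^ j ≤ C * r ^ J * (1 / (1 - r)) :=
        mul_le_mul_of_nonneg_left h4 (by positivity)
    _ = C * r ^ J / (1 - r) := by ring
    _ ≤ ε := hJ

theorem rayr : RayRT := by
  intro e q F _ hfar c y hy hbad
  classical
  have hF := ae_Far hfar
  rw [ae_iff] at hF ⊢
  refine nonpos_iff_eq_zero.1 ?_
  have key : ∀ ε : ℝ, 0 < ε → PM e F {ω | ¬ ∃ x : ℕ → V e, Ray q ω x ∧ Dir q F c x} ≤
      ENNReal.ofReal (2 * ε) := by
    intro ε hε
    have hη : ∀ i : ℕ, (0 : ℝ) < 1 / ((i : ℝ) + 1) := fun i => by positivity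
    choose θ C hθ hC hB using fun i : ℕ => hbad _ (hη i)
    have hJ : ∀ i : ℕ, ∃ J : ℕ, ∀ n : ℕ,
        ∑ j ∈ Finset.range n, C i * (((2 ^ (J + j) : ℕ) : ℝ)) ^ (-θ i) ≤ ε * (1 / 2) ^ (i + 1) :=
      fun i => exists_tail (hθ i) (hC i) (by positivity)
    choose J hJ using hJ
    -- the bad events
    set B : ℕ → ℕ → Set (Om e) := fun n t =>
      ⋃ i ∈ Finset.range n, ⋃ j ∈ Finset.range n,
        BadP q F c (1 / ((i : ℝ) + 1)) (2 ^ (J i + j)) t with hBdef
    have hBn : ∀ n : ℕ, PM e F {ω | ∀ᶠ t in atTop, ω ∈ B n t} ≤ ENNReal.ofReal (2 * ε) := by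
      intro n
      refine prob_eventually (PM e F) (B n) hε ?_
      -- the threshold
      have h1 : ∀ i j : ℕ, ∃ N0 : ℕ, ∀ N : ℕ, N0 ≤ N → ∑ t ∈ Finset.range N,
          PM e F (BadP q F c (1 / ((i : ℝ) + 1)) (2 ^ (J i + j)) t) ≤
            ENNReal.ofReal (C i * (((2 ^ (J i + j) : ℕ) : ℝ)) ^ (-θ i) * N) := fun i j =>
        hB i (2 ^ (J i + j)) (Nat.one_le_two_pow)
      choose N0 hN0 using h1
      refine ⟨(Finset.range n).sup fun i => (Finset.range n).sup fun j => N0 i j,
        fun N hN => ?_⟩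
      have h2 : ∀ i ∈ Finset.range n, ∀ j ∈ Finset.range n, N0 i j ≤ N := by
        intro i hi j hj
        have h3 : N0 i j ≤ (Finset.range n).sup fun j => N0 i j :=
          Finset.le_sup (f := fun j => N0 i j) hj
        have h4 : ((Finset.range n).sup fun j => N0 i j) ≤
            (Finset.range n).sup fun i => (Finset.range n).sup fun j => N0 i j :=
          Finset.le_sup (f := fun i => (Finset.range n).sup fun j => N0 i j) hi
        exact (h3.trans h4).trans hN
      calc ∑ t ∈ Finset.range N, PM e F (B n t)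
          ≤ ∑ t ∈ Finset.range N, ∑ i ∈ Finset.range n, ∑ j ∈ Finset.range n,
              PM e F (BadP q F c (1 / ((i : ℝ) + 1)) (2 ^ (J i + j)) t) := by
            refine Finset.sum_le_sum fun t _ => ?_
            refine (measure_biUnion_finset_le _ _).trans (Finset.sum_le_sum fun i _ => ?_)
            exact measure_biUnion_finset_le _ _
        _ = ∑ i ∈ Finset.range n, ∑ j ∈ Finset.range n, ∑ t ∈ Finset.range N,
              PM e F (BadP q F c (1 / ((i : ℝ) + 1)) (2 ^ (J i + j)) t) := by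
            rw [Finset.sum_comm]
            refine Finset.sum_congr rfl fun i _ => ?_
            rw [Finset.sum_comm]
        _ ≤ ∑ i ∈ Finset.range n, ∑ j ∈ Finset.range n,
              ENNReal.ofReal (C i * (((2 ^ (J i + j) : ℕ) : ℝ)) ^ (-θ i) * N) :=
            Finset.sum_le_sum fun i hi => Finset.sum_le_sum fun j hj =>
              hN0 i j N (h2 i hi j hj)
        _ = ENNReal.ofReal (∑ i ∈ Finset.range n, ∑ j ∈ Finset.range n,
              C i * (((2 ^ (J i + j) : ℕ) : ℝ)) ^ (-θ i) * N) := by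
            rw [ENNReal.ofReal_sum_of_nonneg fun i _ => Finset.sum_nonneg fun j _ => by
              have := hC i
              positivity]
            refine Finset.sum_congr rfl fun i _ => ?_
            rw [ENNReal.ofReal_sum_of_nonneg fun j _ => by
              have := hC i
              positivity]
        _ ≤ ENNReal.ofReal (ε * N) := by
            refine ENNReal.ofReal_le_ofReal ?_
            have h3 : ∀ i ∈ Finset.range n, ∑ j ∈ Finset.range n,
                C i * (((2 ^ (J i + j) : ℕ) : ℝ)) ^ (-θ i) * N ≤ ε * (1 / 2) ^ (i + 1) * N := by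
              intro i _
              rw [← Finset.sum_mul]
              exact mul_le_mul_of_nonneg_right (hJ i n) (Nat.cast_nonneg N)
            refine (Finset.sum_le_sum h3).trans ?_
            rw [← Finset.sum_mul]
            refine mul_le_mul_of_nonneg_right ?_ (Nat.cast_nonneg N)
            rw [← Finset.mul_sum]
            have h4 : ∑ i ∈ Finset.range n, ((1 : ℝ) / 2) ^ (i + 1) ≤ 1 := by
              have h5 : ∀ n : ℕ, ∑ i ∈ Finset.range n, ((1 : ℝ) / 2) ^ (i + 1) =
                  1 - (1 / 2) ^ n := by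
                intro n
                induction n with
                | zero => simp
                | succ n ih => rw [Finset.sum_range_succ, ih]; ring
              rw [h5]
              have : (0 : ℝ) < (1 / 2) ^ n := by positivity
              linarith
            have := mul_le_mul_of_nonneg_left h4 hε.le
            linarith
    have hBmono : ∀ n n' : ℕ, n ≤ n' → ∀ t, B n t ⊆ B n' t := by
      intro n n' hnn t ω hω
      simp only [hBdef, Set.mem_iUnion, Finset.mem_range] at hω ⊢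
      obtain ⟨i, hi, j, hj, h⟩ := hω
      exact ⟨i, by omega, j, by omega, h⟩
    have hEmono : Monotone fun n : ℕ => {ω | ∀ᶠ t in atTop, ω ∈ B n t} := by
      intro n n' hnn ω hω
      have hω' : ∀ᶠ t in atTop, ω ∈ B n t := hω
      show ∀ᶠ t in atTop, ω ∈ B n' t
      filter_upwards [hω'] with t ht
      exact hBmono n n' hnn t ht
    have hU : PM e F (⋃ n, {ω | ∀ᶠ t in atTop, ω ∈ B n t}) ≤ ENNReal.ofReal (2 * ε) := by
      rw [hEmono.measure_iUnion]
      exact iSup_le hBn
    have hsub : {ω | ¬ ∃ x : ℕ → V e, Ray q ω x ∧ Dir q F c x} ⊆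
        {ω | ¬ Far q ω} ∪ ⋃ n, {ω | ∀ᶠ t in atTop, ω ∈ B n t} := by
      intro ω hω
      by_contra hne
      rw [Set.mem_union, not_or] at hne
      obtain ⟨hne1, hne2⟩ := hne
      have hFar : Far q ω := by
        by_contra hh
        exact hne1 hh
      have hgood : ∀ n : ℕ, ∃ᶠ t : ℕ in atTop, ω ∉ B n t := by
        intro n
        by_contra hh
        rw [not_frequently] at hh
        refine hne2 (Set.mem_iUnion.2 ⟨n, ?_⟩)
        show ∀ᶠ t : ℕ in atTop, ω ∈ B n t
        filter_upwards [hh] with t ht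
        by_contra h4
        exact ht h4
      obtain ⟨x, hx, hxg⟩ := exists_ray_gen hFar c y hy (fun n t => ω ∉ B n t) hgood
      refine hω ⟨x, hx, ?_⟩
      -- all scales
      have hall : ∀ i j k : ℕ, n1 (x k) ≤ (2 ^ (J i + j) : ℕ) →
          g q F (x k) ≤ lf c (x k) + 1 / ((i : ℝ) + 1) * ((2 ^ (J i + j) : ℕ) : ℝ) := by
        intro i j k hk
        obtain ⟨n, t, hn, hQ, h3⟩ := hxg k (max i j + 1)
        by_contra hlt
        push Not at hlt
        refine hQ ?_
        simp only [hBdef, Set.mem_iUnion, Finset.mem_range]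
        refine ⟨i, by omega, j, by omega, x k, hk, h3, ?_⟩
        exact hlt
      intro η hη'
      obtain ⟨i, hi⟩ := exists_nat_gt (2 / η)
      have hi' : 2 * (1 / ((i : ℝ) + 1)) ≤ η := by
        rw [div_lt_iff₀ hη'] at hi
        rw [mul_one_div, div_le_iff₀ (by positivity)]
        nlinarith
      have h5 := (tendsto_atTop.1 (ray_n1_tendsto hx.2.2.1)) (2 ^ (J i) + 1 : ℤ)
      filter_upwards [h5] with k hk
      -- the dyadic scale of the point
      obtain ⟨r, hr⟩ : ∃ r : ℕ, n1 (x k) = r := ⟨(n1 (x k)).toNat,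
        (Int.toNat_of_nonneg (n1_nonneg _)).symm⟩
      rw [hr] at hk
      have hr1 : 2 ^ (J i) + 1 ≤ r := by exact_mod_cast hk
      have hex : ∃ j : ℕ, r ≤ 2 ^ (J i + j) := ⟨r, (Nat.lt_two_pow_self).le.trans
        (Nat.pow_le_pow_right two_pos (by omega))⟩
      have hj1 := Nat.find_spec hex
      set j := Nat.find hex with hj
      have hj0 : j ≠ 0 := by
        intro h0
        rw [h0, add_zero] at hj1
        omega
      obtain ⟨j', hj'⟩ : ∃ j', j = j' + 1 := ⟨j - 1, by omega⟩
      have hj2 : ¬ r ≤ 2 ^ (J i + j') := Nat.find_min hex (by omega)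
      push Not at hj2
      have h6 := hall i j k (by rw [hr]; exact_mod_cast hj1)
      have h7 : ((2 ^ (J i + j) : ℕ) : ℝ) ≤ 2 * r := by
        have h8 : 2 ^ (J i + j) ≤ 2 * r := by
          rw [hj', ← add_assoc, pow_succ]
          omega
        exact_mod_cast h8
      have h9 : (n1 (x k) : ℝ) = r := by rw [hr]; simp
      rw [h9]
      calc g q F (x k) ≤ lf c (x k) + 1 / ((i : ℝ) + 1) * ((2 ^ (J i + j) : ℕ) : ℝ) := h6
        _ ≤ lf c (x k) + 1 / ((i : ℝ) + 1) * (2 * r) := by
            have := mul_le_mul_of_nonneg_left h7 (hη i).le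
            linarith
        _ = lf c (x k) + (2 * (1 / ((i : ℝ) + 1))) * r := by ring
        _ ≤ lf c (x k) + η * r := by
            have := mul_le_mul_of_nonneg_right hi' (Nat.cast_nonneg (α := ℝ) r)
            linarith
    calc PM e F {ω | ¬ ∃ x : ℕ → V e, Ray q ω x ∧ Dir q F c x}
        ≤ PM e F ({ω | ¬ Far q ω} ∪ ⋃ n, {ω | ∀ᶠ t in atTop, ω ∈ B n t}) := measure_mono hsub
      _ ≤ PM e F {ω | ¬ Far q ω} + PM e F (⋃ n, {ω | ∀ᶠ t in atTop, ω ∈ B n t}) :=
          measure_union_le _ _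
      _ ≤ 0 + ENNReal.ofReal (2 * ε) := by
          rw [hF]
          exact add_le_add le_rfl hU
      _ = ENNReal.ofReal (2 * ε) := zero_add _
  have h2 : Tendsto (fun n : ℕ => ENNReal.ofReal (2 * (1 / ((n : ℝ) + 1)))) atTop (𝓝 0) := by
    rw [← ENNReal.ofReal_zero]
    refine ENNReal.tendsto_ofReal ?_
    have h4 := (tendsto_one_div_add_atTop_nhds_zero_nat (𝕜 := ℝ)).const_mul 2
    rwa [mul_zero] at h4
  exact ge_of_tendsto' h2 fun n => key _ (by positivity)

end Pool.Agent.J6H38.DIR
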