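import Pool.Agent.J6H38.DIR.Main
import Pool.Agent.J6H48.DIR.PlanB
import Pool.Agent.J6H78.DIR.Shape
import Pool.Agent.J6H72.DIR.NonDeg
import Pool.Agent.J6H72.DIR.AllU
import Pool.Agent.J6H81.NC.Geo
import Pool.Agent.J6H47.NC.Fin13

/-!
# Directions of all geodesic rays in the canonical model
-/

set_option autoImplicit false

open MeasureTheory ProbabilityTheory Filter Topology
open scoped ENNReal

namespace Pool.Agent.J6H38.DIR

open Pool.Agent.J6H99.NC Pool.Agent.J6H81.NC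

/-- the canonical model: the limit shape is smooth, the shape theorem, and the directions of all
geodesic rays -/
theorem canon (hCl : ClT) (q : Par) (F : Measure ℝ) [IsProbabilityMeasure F]
    (hat : ∀ t : ℝ, F {s | q.w s = t} = 0) :
    FarB 0 q F ∧ Smooth q F ∧
      (∀ᵐ ω ∂(PM 0 F), Tendsto (fun v : V 0 => T q ω 0 v / L q F (vc v)) cofinite (𝓝 1)) ∧
      ∀ᵐ ω ∂(PM 0 F), ∀ u : V 0, Dirs q F ω u := by
  obtain ⟨hnd, hpos⟩ := Pool.Agent.J6H72.DIR.nondeg q F hat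
  obtain ⟨hV, hF⟩ := Pool.Agent.J6H42.NC.law 0 q F hpos
  have hNC := Pool.Agent.J6H47.NC.nocor hCl 0 q F hV hF hnd
  have hsm : Smooth q F := Pool.Agent.J6H81.NC.geo q F hF (hNC (Fin 2))
  exact ⟨hF, hsm, Pool.Agent.J6H78.DIR.shape 0 q F hV hF,
    Pool.Agent.J6H72.DIR.allu 0 q F
      (dirs_zero Pool.Agent.J6H48.DIR.planB hV hF hsm hat)⟩

end Pool.Agent.J6H38.DIR
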