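import Mathlib

/-!
# First-passage percolation on `ℤ^d`: geodesics and their directions (definitions)

The weights are a function `w` on the unordered pairs of vertices of which only the values on the
nearest neighbour edges matter.
-/

set_option autoImplicit false

open Filter Topology

namespace Pool.Agent.J6H38.DIR

variable {d : ℕ}

/-- the Euclidean length -/
noncomputable def len (x : Fin d → ℝ) : ℝ := Real.sqrt (∑ i, x i ^ 2)

/-- a vertex as a real vector -/
def toR (v : Fin d → ℤ) : Fin d → ℝ := fun i => (v i : ℝ)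

/-- a self-avoiding lattice path `p 0, ..., p L` from `u` to `v` -/
def IsPath (u v : Fin d → ℤ) (L : ℕ) (p : ℕ → Fin d → ℤ) : Prop :=
  p 0 = u ∧ p L = v ∧ (∀ k < L, ∑ i, |p k i - p (k + 1) i| = 1) ∧ Set.InjOn p (Set.Iic L)

/-- the sum of the weights along `p 0, ..., p L` -/
def pt (w : Sym2 (Fin d → ℤ) → ℝ) (L : ℕ) (p : ℕ → Fin d → ℤ) : ℝ :=
  ∑ k ∈ Finset.range L, w s(p k, p (k + 1))

/-- the passage time between `u` and `v` -/
noncomputable def passage (w : Sym2 (Fin d → ℤ) → ℝ) (u v : Fin d → ℤ) : ℝ :=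
  sInf {r : ℝ | ∃ (L : ℕ) (p : ℕ → Fin d → ℤ), IsPath u v L p ∧ r = pt w L p}

/-- the infinite geodesics from `u` -/
def IsGeod (w : Sym2 (Fin d → ℤ) → ℝ) (u : Fin d → ℤ) (γ : ℕ → Fin d → ℤ) : Prop :=
  γ 0 = u ∧ Function.Injective γ ∧ (∀ k, ∑ i, |γ k i - γ (k + 1) i| = 1) ∧
    ∀ m n : ℕ, m ≤ n → pt w (n - m) (fun k => γ (m + k)) = passage w (γ m) (γ n)

/-- the unit directions `z` of the face of the unit ball of `G` in the direction `x`, for a norm `G`
with derivative `fderiv ℝ G x` at `x` -/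
def face (G : (Fin d → ℝ) → ℝ) (x : Fin d → ℝ) : Set (Fin d → ℝ) :=
  {z | len z = 1 ∧ fderiv ℝ G x z = G z}

/-- the distance from `γ n / |γ n|` to the set `S` tends to `0` -/
def DirectedIn (γ : ℕ → Fin d → ℤ) (S : Set (Fin d → ℝ)) : Prop :=
  Tendsto (fun n => Metric.infDist ((len (toR (γ n)))⁻¹ • toR (γ n)) S) atTop (𝓝 0)

/-- `γ` has the asymptotic direction `x` -/
def HasDirection (γ : ℕ → Fin d → ℤ) (x : Fin d → ℝ) : Prop :=
  Tendsto (fun n => (len (toR (γ n)))⁻¹ • toR (γ n)) atTop (𝓝 x)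

end Pool.Agent.J6H38.DIR
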