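import Pool.Agent.J6H38.DIR.Unc
import Pool.Agent.J6H42.NC.Transfer

/-!
# Directions of all geodesic rays: the final statement
-/

set_option autoImplicit false

open MeasureTheory ProbabilityTheory Filter Topology
open scoped ENNReal

namespace Pool.Agent.J6H38.DIR

open Pool.Agent.J6H99.NC Pool.Agent.J6H81.NC Pool.Agent.J6H98.NC

lemma L_abs_smul {e : ℕ} {q : Par} {F : Measure ℝ} [IsProbabilityMeasure F] (s : ℝ) (y : E e) :
    L q F (s • y) = |s| * L q F y := by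
  rcases lt_trichotomy s 0 with h | h | h
  · rw [abs_of_neg h, ← L_smul (neg_pos.2 h), ← Pool.Agent.J6H48.DIR.L_neg, neg_smul]
  · rw [h, zero_smul, abs_zero, zero_mul, L_zero]
  · rw [abs_of_pos h, L_smul h]

/-- the property of a configuration -/
def Good (G : (Fin 2 → ℝ) → ℝ) (w : Sym2 (Fin 2 → ℤ) → ℝ) : Prop :=
  Tendsto (fun v : Fin 2 → ℤ => passage w 0 v / G (toR v)) cofinite (𝓝 1) ∧
    ∀ u : Fin 2 → ℤ,
      (∀ γ : ℕ → Fin 2 → ℤ, IsGeod w u γ → ∃ x : Fin 2 → ℝ, len x = 1 ∧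
        DirectedIn γ (face G x)) ∧
      (∀ x : Fin 2 → ℝ, len x = 1 → ∃ γ : ℕ → Fin 2 → ℤ, IsGeod w u γ ∧
        DirectedIn γ (face G x)) ∧
      (∀ x : Fin 2 → ℝ, len x = 1 → face G x = {x} → ∃ γ : ℕ → Fin 2 → ℤ, IsGeod w u γ ∧
        HasDirection γ x) ∧
      ((∀ x : Fin 2 → ℝ, len x = 1 → face G x = {x}) → ∀ γ : ℕ → Fin 2 → ℤ, IsGeod w u γ →
        ∃ x : Fin 2 → ℝ, len x = 1 ∧ HasDirection γ x)

/-- deterministic part: from the canonical form to the final form -/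
lemma good_of {q : Par} {F : Measure ℝ} [IsProbabilityMeasure F] (hsm : Smooth q F) {ω : Om 0}
    (h : ∀ s : Sym2 (V 0), IsEdge s → q.w (ω s) = ω s)
    (h1 : Tendsto (fun v : V 0 => T q ω 0 v / L q F (vc v)) cofinite (𝓝 1))
    (h2 : ∀ u : V 0, Dirs q F ω u) : Good (L q F : E 0 → ℝ) ω := by
  refine ⟨?_, fun u => ?_⟩
  · have h3 : (fun v : V 0 => T q ω 0 v / L q F (vc v)) =
        fun v : Fin 2 → ℤ => passage ω 0 v / (L q F : E 0 → ℝ) (toR v) := by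
      funext v
      rw [← passage_eq q h]
      rfl
    rw [← h3]
    exact h1
  have hb : ∀ x : E 0, len x = 1 → ∃ γ : ℕ → V 0, IsGeod ω u γ ∧
      DirectedIn γ (face (L q F : E 0 → ℝ) x) := by
    intro x hx
    have hx0 := ne_zero_of_len hx
    obtain ⟨c, hs, -, -, -⟩ := hsm x hx0
    obtain ⟨γ, hγ, hd⟩ := (h2 u).2 c x hx0 hs
    refine ⟨γ, (isGeod_iff q h u γ).2 hγ, ?_⟩
    have h4 := directed (supp_iff.1 hs).1 hγ.2.2.1 hd
    rw [← face_eq hsm hx0 hs] at h4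
    exact h4
  have hdir : ∀ (γ : ℕ → Fin 2 → ℤ) (x : Fin 2 → ℝ), face (L q F : E 0 → ℝ) x = {x} →
      DirectedIn γ (face (L q F : E 0 → ℝ) x) → HasDirection γ x := by
    intro γ x hf hd
    rw [hf] at hd
    unfold DirectedIn at hd
    simp only [Metric.infDist_singleton] at hd
    exact tendsto_iff_dist_tendsto_zero.2 hd
  have ha : ∀ γ : ℕ → Fin 2 → ℤ, IsGeod ω u γ → ∃ x : Fin 2 → ℝ, len x = 1 ∧
      DirectedIn γ (face (L q F : E 0 → ℝ) x) := by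
    intro γ hγ
    have hγ' := (isGeod_iff q h u γ).1 hγ
    obtain ⟨c, y, hy, hs, hd⟩ := (h2 u).1 γ hγ'
    have hl : 0 < len y := len_pos hy
    have hlx : len ((len y)⁻¹ • y) = 1 := by
      rw [len_smul, abs_of_pos (inv_pos.2 hl), inv_mul_cancel₀ hl.ne']
    refine ⟨(len y)⁻¹ • y, hlx, ?_⟩
    have hsx : Supp q F c ((len y)⁻¹ • y) := Pool.Agent.J6H48.DIR.supp_smul (inv_pos.2 hl) hs
    have h4 := directed (supp_iff.1 hs).1 hγ'.2.2.1 hd
    rw [← face_eq hsm (ne_zero_of_len hlx) hsx] at h4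
    exact h4
  refine ⟨ha, hb, fun x hx hf => ?_, fun hf γ hγ => ?_⟩
  · obtain ⟨γ, hγ, hd⟩ := hb x hx
    exact ⟨γ, hγ, hdir γ x hf hd⟩
  · obtain ⟨x, hx, hd⟩ := ha γ hγ
    exact ⟨x, hx, hdir γ x (hf x hx) hd⟩

/-- **Directions of all geodesic rays.** -/
theorem fin (hCl : ClT) (μ : Measure ℝ) [IsProbabilityMeasure μ] [NullSingletonClass μ]
    (h0 : μ (Set.Iio 0) = 0) (hb : ∃ b : ℝ, μ (Set.Ioi b) = 0) :
    ∃ G : (Fin 2 → ℝ) → ℝ, (∀ x, x ≠ 0 → 0 < G x) ∧ (∀ (s : ℝ) (x : Fin 2 → ℝ),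
      G (s • x) = |s| * G x) ∧ (∀ x y, G (x + y) ≤ G x + G y) ∧
      (∀ x, x ≠ 0 → DifferentiableAt ℝ G x) ∧
      ¬ {x : Fin 2 → ℝ | len x = 1 ∧ face G x = {x}}.Countable ∧
      ∀ (Ω : Type) (mΩ : MeasurableSpace Ω) (P : Measure Ω), IsProbabilityMeasure P →
      ∀ (t : Sym2 (Fin 2 → ℤ) → Ω → ℝ), (∀ e, Measurable (t e)) →
        iIndepFun (fun e : {e : Sym2 (Fin 2 → ℤ) //
          ∃ x y : Fin 2 → ℤ, e = s(x, y) ∧ ∑ i, |x i - y i| = 1} => t e.1) P →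
        (∀ x y : Fin 2 → ℤ, ∑ i, |x i - y i| = 1 → Measure.map (t s(x, y)) P = μ) →
        ∀ᵐ ω ∂P, Good G (fun e => t e ω) := by
  obtain ⟨b, hb⟩ := hb
  set b1 : ℝ := max b 1 with hb1
  have hb1pos : 0 < b1 := lt_of_lt_of_le one_pos (le_max_right _ _)
  have hb1' : μ (Set.Ioi b1) = 0 := measure_mono_null (Set.Ioi_subset_Ioi (le_max_left _ _)) hb
  let q : Par := ⟨0, b1, le_rfl, hb1pos.le, hb1pos⟩
  have hqw : ∀ r : ℝ, 0 ≤ r → r ≤ b1 → q.w r = r := by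
    intro r h1 h2
    show max 0 (min b1 r) = r
    rw [min_eq_right h2, max_eq_right h1]
  have hat : ∀ t : ℝ, μ {s | q.w s = t} = 0 := by
    intro t
    have h1 : {s : ℝ | q.w s = t} ⊆ Set.Iio 0 ∪ (Set.Ioi b1 ∪ {t}) := by
      intro s hs
      by_cases h2 : s < 0
      · exact Or.inl h2
      by_cases h3 : b1 < s
      · exact Or.inr (Or.inl h3)
      push Not at h2 h3
      right; right
      have hs' : q.w s = t := hs
      rw [hqw s h2 h3] at hs'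
      exact hs'
    exact measure_mono_null h1 (measure_union_null h0 (measure_union_null hb1'
      (measure_singleton _)))
  obtain ⟨hF, hsm, hshape, hdirs⟩ := canon hCl q μ hat
  refine ⟨(L q μ : E 0 → ℝ), fun x hx => L_pos hF hx, fun s x => L_abs_smul s x,
    fun x y => L_add x y, fun x hx => ?_, uncountable_exposed hF hsm, ?_⟩
  · obtain ⟨c, hs, hd, -, -⟩ := hsm x hx
    exact (hasFDerivAt_L hs hd).differentiableAt
  intro Ω mΩ P hP t htm hind hlaw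
  have h1 : ∀ᵐ ω ∂(PM 0 μ), Tendsto (fun v : V 0 => T q ω 0 v / L q μ (vc v)) cofinite (𝓝 1) ∧
      ∀ u : V 0, Dirs q μ ω u := hshape.and hdirs
  have h2 : ∀ᵐ ω ∂P, Tendsto (fun v : V 0 => T q (fun s => t s ω) 0 v / L q μ (vc v)) cofinite
      (𝓝 1) ∧ ∀ u : V 0, Dirs q μ (fun s => t s ω) u := by
    refine Pool.Agent.J6H42.NC.transfer 0 μ Ω mΩ P hP t htm hind ?_
      (fun ω : Om 0 => Tendsto (fun v : V 0 => T q ω 0 v / L q μ (vc v)) cofinite (𝓝 1) ∧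
        ∀ u : V 0, Dirs q μ ω u) ?_ h1
    · rintro s ⟨x, y, rfl, hxy⟩
      exact hlaw x y hxy
    · intro ω ω' h
      have h' : ∀ s, IsEdge s → ω' s = ω s := fun s hs => (h s hs).symm
      have h3 : (fun v : V 0 => T q ω 0 v / L q μ (vc v)) =
          fun v : V 0 => T q ω' 0 v / L q μ (vc v) := by
        funext v
        rw [T_congr q h]
      show (_ ∧ _) ↔ (_ ∧ _)
      rw [h3]
      exact and_congr_right fun _ => ⟨fun h4 u => dirs_imp h (h4 u), fun h4 u => dirs_imp h' (h4 u)⟩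
  have h3 : ∀ᵐ ω ∂P, ∀ s : Sym2 (V 0), IsEdge s → 0 ≤ t s ω ∧ t s ω ≤ b1 := by
    have : Countable (Sym2 (V 0)) := by unfold Sym2; infer_instance
    rw [ae_all_iff]
    intro s
    by_cases hs : IsEdge s
    · obtain ⟨x, y, rfl, hxy⟩ := hs
      have hm : Measure.map (t s(x, y)) P = μ := hlaw x y hxy
      have h4 : P (t s(x, y) ⁻¹' Set.Iio 0) = 0 := by
        rw [← Measure.map_apply (htm _) measurableSet_Iio, hm]; exact h0
      have h5 : P (t s(x, y) ⁻¹' Set.Ioi b1) = 0 := by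
        rw [← Measure.map_apply (htm _) measurableSet_Ioi, hm]; exact hb1'
      have h6 : ∀ᵐ ω ∂P, ω ∉ t s(x, y) ⁻¹' Set.Iio 0 := measure_eq_zero_iff_ae_notMem.1 h4
      have h7 : ∀ᵐ ω ∂P, ω ∉ t s(x, y) ⁻¹' Set.Ioi b1 := measure_eq_zero_iff_ae_notMem.1 h5
      filter_upwards [h6, h7] with ω h8 h9 _
      exact ⟨not_lt.1 h8, not_lt.1 h9⟩
    · exact Eventually.of_forall fun ω h => absurd h hs
  filter_upwards [h2, h3] with ω h4 h5
  exact good_of hsm (fun s hs => hqw _ (h5 s hs).1 (h5 s hs).2) h4.1 h4.2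

end Pool.Agent.J6H38.DIR
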