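import Pool.Agent.J6H38.DIR.Stm
import Pool.Agent.J6H47.NC.Power
import Pool.Agent.J6H81.NC.G2

/-!
# Module RATE: a rate of convergence for the cheapest points above a level

Adapted from helper47's module POWER (`Pool/Agent/J6H47/NC/Power.lean`).
-/

set_option autoImplicit false

open MeasureTheory ProbabilityTheory Filter Topology
open scoped ENNReal

namespace Pool.Agent.J6H38.DIR

open Pool.Agent.J6H99.NC
open Pool.Agent.J6H47.NC (g_nonneg g_le g_add g_zero g_neg Box Gd stay cost_layers setup)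

variable {e : ℕ}

section

variable {q : Par} {F : Measure ℝ} [IsProbabilityMeasure F] {c v : E e}

/-- the rounding constant -/
noncomputable def rcc (c : E e) : ℝ := nr c * ((e : ℝ) + 2)

lemma rcc_nonneg (c : E e) : 0 ≤ rcc c := by
  unfold rcc
  have := nr_nonneg c
  positivity

lemma lf_rnd (hv : dt c v = 1) (t : ℝ) : |lf c (rnd (t • v)) - t| ≤ rcc c := by
  have h := abs_lf_rnd_sub c (t • v)
  rwa [dt_smul, hv, mul_one] at h

lemma exists_lf_ge (hv : dt c v = 1) (m : ℝ) : m ≤ lf c (rnd ((m + rcc c) • v)) := by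
  have h := (abs_le.1 (lf_rnd hv (m + rcc c))).1
  linarith

/-- the least mean passage time to the points of level at least `m` -/
noncomputable def hc (q : Par) (F : Measure ℝ) [IsProbabilityMeasure F] (c : E e) (m : ℝ) : ℝ :=
  ⨅ z : {z : V e // m ≤ lf c z}, g q F z.1

lemma hc_bdd (m : ℝ) : BddBelow (Set.range fun z : {z : V e // m ≤ lf c z} => g q F z.1) :=
  ⟨0, by rintro _ ⟨z, rfl⟩; exact g_nonneg q F _⟩

lemma hc_le {m : ℝ} {z : V e} (h : m ≤ lf c z) : hc q F c m ≤ g q F z :=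
  ciInf_le (hc_bdd m) ⟨z, h⟩

lemma exists_hc (hv : dt c v = 1) (m : ℝ) {δ : ℝ} (hδ : 0 < δ) :
    ∃ z : V e, m ≤ lf c z ∧ g q F z < hc q F c m + δ := by
  have : Nonempty {z : V e // m ≤ lf c z} := ⟨⟨_, exists_lf_ge hv m⟩⟩
  obtain ⟨z, hz⟩ := exists_lt_of_ciInf_lt (show hc q F c m < hc q F c m + δ by linarith)
  exact ⟨z.1, z.2, hz⟩

lemma hc_shift (hv : dt c v = 1) (m : ℝ) :
    hc q F c m ≤ hc q F c (m - nr c) + q.b * n1 (rnd ((nr c + rcc c) • v)) := by
  refine le_of_forall_pos_lt_add fun δ hδ => ?_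
  obtain ⟨z, hz, hg⟩ := exists_hc (q := q) (F := F) hv (m - nr c) hδ
  have h1 := exists_lf_ge hv (nr c)
  have h2 := hc_le (q := q) (F := F) (m := m) (c := c) (z := z + rnd ((nr c + rcc c) • v)) (by
    rw [lf_add]; linarith)
  have h3 := g_add q F z (rnd ((nr c + rcc c) • v))
  have h4 := g_le q F (rnd ((nr c + rcc c) • v))
  linarith

lemma hc_ub (hv : dt c v = 1) (m : ℝ) (hm : 0 ≤ m) :
    hc q F c m ≤ q.b * ((m + rcc c) * nr v + ((e : ℝ) + 2)) := by
  have h1 := hc_le (q := q) (F := F) (exists_lf_ge hv m)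
  have h2 := g_le q F (rnd ((m + rcc c) • v))
  have h3 := n1_rnd_le ((m + rcc c) • v)
  rw [nr_smul, abs_of_nonneg (by linarith [rcc_nonneg c])] at h3
  have h4 := mul_le_mul_of_nonneg_left h3 q.hb.le
  linarith

lemma hc_lim (hv : dt c v = 1) (hs : Supp q F c v) (δ : ℝ) (hδ : 0 < δ) :
    ∀ᶠ n : ℕ in atTop, hc q F c n ≤ n * (1 + δ) := by
  obtain ⟨k0, hk0⟩ := exists_nat_ge (rcc c)
  have h1 := hs.2 (δ / 2) (half_pos hδ)
  rw [hv] at h1
  have h2 : ∀ᶠ n : ℕ in atTop, g q F (rnd (((n + k0 : ℕ) : ℝ) • v)) ≤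
      ((n + k0 : ℕ) : ℝ) * (1 + δ / 2) :=
    (tendsto_add_atTop_nat k0).eventually h1
  obtain ⟨n0, hn0⟩ := exists_nat_ge ((k0 : ℝ) * (1 + δ / 2) / (δ / 2))
  filter_upwards [h2, eventually_ge_atTop n0] with n hn hn1
  have h3 := (abs_le.1 (lf_rnd hv ((n + k0 : ℕ) : ℝ))).1
  have h4 := hc_le (q := q) (F := F) (c := c) (m := n) (z := rnd (((n + k0 : ℕ) : ℝ) • v)) (by
    push_cast at h3 ⊢; linarith)
  have h5 : (k0 : ℝ) * (1 + δ / 2) ≤ n * (δ / 2) := by
    rw [div_le_iff₀ (half_pos hδ)] at hn0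
    have h6 : (n0 : ℝ) ≤ n := by exact_mod_cast hn1
    have h7 := mul_le_mul_of_nonneg_right h6 (half_pos hδ).le
    linarith
  have h6 : ((n + k0 : ℕ) : ℝ) * (1 + δ / 2) = (n + k0) * (1 + δ / 2) := by push_cast; ring
  rw [h6] at hn
  nlinarith

/-- mean passage times bound distances -/
lemma n1_le_gc (hfar : FarB e q F) : ∃ K : ℝ, 0 ≤ K ∧ ∀ z : V e,
    (n1 z : ℝ) ≤ K * (g q F z + 1) := by
  obtain ⟨c', hc', N0, h⟩ := Pool.Agent.J6H81.NC.g_lower (q := q) (F := F) hfar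
  refine ⟨N0 + 1 / c', by positivity, fun z => ?_⟩
  have h0 := g_nonneg q F z
  rcases le_or_gt (N0 : ℤ) (n1 z) with h1 | h1
  · have h2 := h z h1
    have h3 : (n1 z : ℝ) ≤ g q F z / c' := by
      rw [le_div_iff₀ hc']; linarith
    have h4 : (0 : ℝ) ≤ N0 * (g q F z + 1) := by positivity
    have h5 : (N0 + 1 / c') * (g q F z + 1) = N0 * (g q F z + 1) + (g q F z / c' + 1 / c') := by
      ring
    have h6 : 0 < 1 / c' := by positivity
    rw [h5]
    linarith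
  · have h2 : (n1 z : ℝ) ≤ N0 := by exact_mod_cast h1.le
    have h4 : (0 : ℝ) ≤ N0 * g q F z := by positivity
    have h6 : 0 ≤ 1 / c' * (g q F z + 1) := by positivity
    have h5 : (N0 + 1 / c') * (g q F z + 1) = N0 + N0 * g q F z + 1 / c' * (g q F z + 1) := by
      ring
    rw [h5]
    linarith

/-- points with small mean passage time are not far away -/
lemma near_ptc (hv : dt c v = 1) {K : ℝ} (hK : 0 ≤ K)
    (hKg : ∀ z : V e, (n1 z : ℝ) ≤ K * (g q F z + 1)) (m M : ℝ) (hM : 1 ≤ M) (hm : 0 ≤ m)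
    (hmM : m ≤ M) {y : V e} (hg : g q F y < hc q F c m + 1) :
    (n1 y : ℝ) ≤ K * (q.b * ((1 + rcc c) * nr v + ((e : ℝ) + 2)) + 2) * M := by
  have h1 := hKg y
  have h2 := hc_ub (q := q) (F := F) hv m hm
  have h4 : g q F y + 1 ≤ (q.b * ((1 + rcc c) * nr v + ((e : ℝ) + 2)) + 2) * M := by
    have hb := q.hb
    have hr := rcc_nonneg c
    have hv := nr_nonneg v
    have he : (0 : ℝ) ≤ (e : ℝ) + 2 := by positivity
    have h5 : (m + rcc c) * nr v + ((e : ℝ) + 2) ≤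
        ((1 + rcc c) * nr v + ((e : ℝ) + 2)) * M := by
      have h6 : (m + rcc c) ≤ (1 + rcc c) * M := by nlinarith
      have h7 := mul_le_mul_of_nonneg_right h6 hv
      nlinarith
    have h8 := mul_le_mul_of_nonneg_left h5 hb.le
    nlinarith
  calc (n1 y : ℝ) ≤ K * (g q F y + 1) := h1
    _ ≤ K * ((q.b * ((1 + rcc c) * nr v + ((e : ℝ) + 2)) + 2) * M) :=
        mul_le_mul_of_nonneg_left h4 hK
    _ = _ := by ring

/-- superadditivity up to the fluctuations -/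
lemma superaddc (hv : dt c v = 1) {K : ℝ} (hK : 0 ≤ K)
    (hKg : ∀ z : V e, (n1 z : ℝ) ≤ K * (g q F z + 1)) {c1 : ℝ} (hc1 : 0 < c1) {R : ℕ} {t : ℝ}
    {ω : Om e} (hω : ω ∈ Gd e q F c1 R t)
    (M : ℝ) (hM : 1 ≤ M) (hR : q.b * (K *
      (q.b * ((1 + rcc c) * nr v + ((e : ℝ) + 2)) + 2) * M) + 1 < c1 * R)
    (k m : ℕ) (hkm : ((k * m : ℕ) : ℝ) ≤ M) :
    (k : ℝ) * hc q F c m ≤ hc q F c ((k * m : ℕ) : ℝ) +
      k * (q.b * n1 (rnd ((nr c + rcc c) • v))) + (k + 1) * t + 2 := by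
  obtain ⟨y, hy, hg⟩ := exists_hc (q := q) (F := F) hv ((k * m : ℕ) : ℝ) one_pos
  have hn := near_ptc hv hK hKg _ M hM (Nat.cast_nonneg _) hkm hg
  obtain ⟨p, hp⟩ := exists_near q ω 0 y one_pos
  have hb := q.hb
  have hR' : q.b * (n1 y : ℝ) + 1 < c1 * R := by
    have := mul_le_mul_of_nonneg_left hn hb.le
    linarith
  have hsupp := stay q F hω hc1 hR' p hp
  have h0 : (0 : V e) ∈ Box e R := hsupp _ p.start_mem_support
  have h1 : y ∈ Box e R := hsupp _ p.end_mem_support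
  have hup := (abs_le.1 (hω.1 0 h0 _ h1)).2
  rw [sub_zero] at hup
  have hlow := cost_layers q ω c (Box e R) m (hc q F c (m - nr c) - t) (Nat.cast_nonneg _) (by
      intro x hx y hy hxy
      have h2 := (abs_le.1 (hω.1 x hx y hy)).1
      rw [← lf_sub] at hxy
      have h3 := hc_le (q := q) (F := F) hxy
      linarith) k 0 0 y p hsupp (by rw [lf_zero]; linarith [nr_nonneg c]) (by
      push_cast at hy; linarith)
  have h4 := hc_shift (q := q) (F := F) hv m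
  have h5 := mul_le_mul_of_nonneg_left h4 (Nat.cast_nonneg (α := ℝ) k)
  nlinarith

/-- the bound for the excess -/
theorem excessc (hv : dt c v = 1) (hs : Supp q F c v) (VAR : VarB e q F) (FAR : FarB e q F) :
    ∃ C : ℝ, 0 ≤ C ∧ ∀ s m : ℕ, 1 ≤ s → m ≤ s ^ (2 * (e + 2) + 2) →
      hc q F c m ≤ m + C * s ^ (2 * (e + 2) + 1) := by
  have hb := q.hb
  have hrc := rcc_nonneg c
  have hvn := nr_nonneg v
  obtain ⟨K, hK, hKg⟩ := n1_le_gc (q := q) (F := F) FAR
  obtain ⟨c1, A, C1, hc1, hC1, hA, hpr⟩ := setup (e := e) (q := q) (F := F) VAR FAR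
    (K * (q.b * ((1 + rcc c) * nr v + ((e : ℝ) + 2)) + 2)) (by positivity)
  set k : ℕ := 2 ^ (2 * (e + 2) + 2) with hk
  have hk1 : 1 ≤ k := Nat.one_le_pow _ _ (by norm_num)
  have hkR : (1 : ℝ) ≤ k := by exact_mod_cast hk1
  have hk0 : (0 : ℝ) < k := by linarith
  have hkk : (k : ℝ) = 2 * 2 ^ (2 * (e + 2) + 1) := by rw [hk]; push_cast; ring
  set C6 : ℝ := q.b * n1 (rnd ((nr c + rcc c) • v)) with hC6
  have hC60 : 0 ≤ C6 := by
    have : (0 : ℝ) ≤ n1 (rnd ((nr c + rcc c) • v)) := by exact_mod_cast n1_nonneg _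
    positivity
  set C2 : ℝ := (k * C6 + (k + 1) * C1 * 2 ^ (2 * (e + 2) + 1) + 2) / k with hC2
  have hC2' : 0 ≤ C2 := by positivity
  have hC2k : k * C2 = k * C6 + (k + 1) * C1 * 2 ^ (2 * (e + 2) + 1) + 2 := by
    rw [hC2]; field_simp
  -- one step
  have step : ∀ s m : ℕ, 1 ≤ s → m ≤ s ^ (2 * (e + 2) + 2) →
      (k : ℝ) * (hc q F c m - m) ≤
        (hc q F c ((k * m : ℕ) : ℝ) - (k * m : ℕ)) + k * C2 * s ^ (2 * (e + 2) + 1) := by
    intro s m hs hm
    have hkm : k * m ≤ (2 * s) ^ (2 * (e + 2) + 2) := by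
      rw [mul_pow]; exact Nat.mul_le_mul_left _ hm
    have hne : (Gd e q F c1 (A * (2 * s) ^ (2 * (e + 2) + 2))
        (C1 * ((2 * s : ℕ) : ℝ) ^ (2 * (e + 2) + 1))).Nonempty := by
      rw [Set.nonempty_iff_ne_empty]
      intro h0
      have h1 := hpr (2 * s) (by omega)
      rw [h0, measure_empty] at h1
      simp at h1
    obtain ⟨ω, hω⟩ := hne
    have hM1 : 1 ≤ (2 * s) ^ (2 * (e + 2) + 2) := Nat.one_le_pow _ _ (by omega)
    have h1 := superaddc hv hK hKg hc1 hω (((2 * s) ^ (2 * (e + 2) + 2) : ℕ) : ℝ)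
      (by exact_mod_cast hM1) (hA _ hM1) k m (by exact_mod_cast hkm)
    have hs1 : (1 : ℝ) ≤ (s : ℝ) ^ (2 * (e + 2) + 1) :=
      one_le_pow₀ (by exact_mod_cast hs)
    have h2 : k * C6 + (k + 1) * (C1 * ((2 * s : ℕ) : ℝ) ^ (2 * (e + 2) + 1)) + 2 ≤
        k * C2 * s ^ (2 * (e + 2) + 1) := by
      rw [hC2k]
      push_cast
      rw [mul_pow]
      have h3 : k * C6 ≤ k * C6 * (s : ℝ) ^ (2 * (e + 2) + 1) :=
        le_mul_of_one_le_right (by positivity) hs1
      nlinarith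
    push_cast at h1 h2 ⊢
    linarith
  -- iteration
  have iter : ∀ j s m : ℕ, 1 ≤ s → m ≤ s ^ (2 * (e + 2) + 2) →
      hc q F c m - m ≤
        (hc q F c ((k ^ j * m : ℕ) : ℝ) - (k ^ j * m : ℕ)) / k ^ j +
          2 * C2 * s ^ (2 * (e + 2) + 1) := by
    intro j
    induction j with
    | zero =>
      intro s m _ _
      have : (0 : ℝ) ≤ 2 * C2 * (s : ℝ) ^ (2 * (e + 2) + 1) := by positivity
      simpa using this
    | succ j ih =>
      intro s m hs hm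
      have hkm : k * m ≤ (2 * s) ^ (2 * (e + 2) + 2) := by
        rw [mul_pow]; exact Nat.mul_le_mul_left _ hm
      have h1 := ih (2 * s) (k * m) (by omega) hkm
      have h2 := step s m hs hm
      have h3 : k ^ j * (k * m) = k ^ (j + 1) * m := by ring
      rw [h3] at h1
      have h4 : (2 * C2 * ((2 * s : ℕ) : ℝ) ^ (2 * (e + 2) + 1)) =
          k * (C2 * s ^ (2 * (e + 2) + 1)) := by
        rw [hkk]; push_cast; rw [mul_pow]; ring
      rw [h4] at h1
      have h5 : (k : ℝ) * (hc q F c m - m) ≤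
          k * ((hc q F c ((k ^ (j + 1) * m : ℕ) : ℝ) -
            (k ^ (j + 1) * m : ℕ)) / k ^ (j + 1) + 2 * C2 * s ^ (2 * (e + 2) + 1)) := by
        have h6 : (k : ℝ) * ((hc q F c ((k ^ (j + 1) * m : ℕ) : ℝ) -
            (k ^ (j + 1) * m : ℕ)) / k ^ (j + 1)) =
            (hc q F c ((k ^ (j + 1) * m : ℕ) : ℝ) - (k ^ (j + 1) * m : ℕ)) / k ^ j := by
          rw [pow_succ (k : ℝ)]; field_simp
        rw [mul_add, h6]
        linarith
      exact le_of_mul_le_mul_left h5 hk0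
  refine ⟨2 * C2, by positivity, fun s m hs' hm => ?_⟩
  have hlim : ∀ m : ℕ, m ≤ s ^ (2 * (e + 2) + 2) → 0 < m →
      hc q F c m ≤ m + 2 * C2 * s ^ (2 * (e + 2) + 1) := by
    intro m hm hm0
    have hmR : (0 : ℝ) < m := by exact_mod_cast hm0
    refine le_of_forall_pos_le_add fun δ hδ => ?_
    have hto : Tendsto (fun j : ℕ => k ^ j * m) atTop atTop := by
      refine Tendsto.atTop_mul_const' hm0 (tendsto_pow_atTop_atTop_of_one_lt ?_)
      rw [hk]
      exact Nat.one_lt_pow (by omega) (by norm_num)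
    obtain ⟨j, hj⟩ := (hto.eventually (hc_lim hv hs (δ / m) (by positivity))).exists
    have h1 := iter j s m hs' hm
    have hkj : (0 : ℝ) < (k : ℝ) ^ j := by positivity
    have h2 : (hc q F c ((k ^ j * m : ℕ) : ℝ) - (k ^ j * m : ℕ)) / k ^ j ≤ δ := by
      rw [div_le_iff₀ hkj]
      push_cast at hj ⊢
      have h3 : (k : ℝ) ^ j * m * (1 + δ / m) = (k : ℝ) ^ j * m + δ * k ^ j := by
        field_simp
      rw [h3] at hj
      linarith
    linarith
  rcases Nat.eq_zero_or_pos m with rfl | hm0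
  · have h1 := hc_le (q := q) (F := F) (c := c) (m := ((0 : ℕ) : ℝ)) (z := 0) (by simp)
    rw [g_zero] at h1
    have : (0 : ℝ) ≤ 2 * C2 * (s : ℝ) ^ (2 * (e + 2) + 1) := by positivity
    push_cast at h1 ⊢
    linarith
  · exact hlim m hm hm0

end

/-- **Module RATE.** -/
theorem rate : RateT := by
  intro e q F _ VAR FAR c y hy hsupp
  -- normalize
  set v : E e := (dt c y)⁻¹ • y with hv'
  have hv : dt c v = 1 := by rw [hv', dt_smul, inv_mul_cancel₀ hy.ne']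
  have hs : Supp q F c v := by
    rw [Pool.Agent.J6H81.NC.supp_iff] at hsupp ⊢
    refine ⟨hsupp.1, ?_⟩
    rw [hv', Pool.Agent.J6H81.NC.L_smul (inv_pos.2 hy), dt_smul, hsupp.2]
  obtain ⟨C, hC, hex⟩ := excessc hv hs VAR FAR
  set P : ℕ := 2 * (e + 2) + 1 with hP
  have hP0 : (0 : ℝ) < (P : ℝ) + 1 := by positivity
  have hP1 : (1 : ℝ) ≤ P := by
    rw [hP]; push_cast
    have : (0 : ℝ) ≤ e := Nat.cast_nonneg e
    linarith
  refine ⟨1 / (P + 1), C * 2 ^ P + 1, by positivity, ?_, by positivity, fun m hm => ?_⟩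
  · rw [div_lt_one hP0]; linarith
  have hlR : (1 : ℝ) ≤ m := by exact_mod_cast hm
  have hl0 : (0 : ℝ) ≤ m := by linarith
  set a : ℝ := (m : ℝ) ^ (1 / ((P : ℝ) + 1)) with ha
  have ha1 : 1 ≤ a := Real.one_le_rpow hlR (by positivity)
  have haP : a ^ (P + 1) = m := by
    rw [ha, ← Real.rpow_natCast, ← Real.rpow_mul hl0]
    push_cast
    rw [one_div, inv_mul_cancel₀ hP0.ne', Real.rpow_one]
  have haP' : a ^ P = (m : ℝ) ^ (1 - 1 / ((P : ℝ) + 1)) := by
    rw [ha, ← Real.rpow_natCast, ← Real.rpow_mul hl0]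
    congr 1
    field_simp
    ring
  set s : ℕ := ⌈a⌉₊ with hs'
  have has : a ≤ s := Nat.le_ceil a
  have hs1 : 1 ≤ s := by
    have : (1 : ℝ) ≤ s := ha1.trans has
    exact_mod_cast this
  have hs2 : (s : ℝ) ≤ 2 * a := by
    have := Nat.ceil_lt_add_one (by linarith : 0 ≤ a)
    linarith
  have hls : m ≤ s ^ (P + 1) := by
    have h1 : (m : ℝ) ≤ (s : ℝ) ^ (P + 1) := by
      rw [← haP]
      exact pow_le_pow_left₀ (by linarith) has _
    exact_mod_cast h1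
  have h2 := hex s m hs1 hls
  obtain ⟨x, hx1, hx2⟩ := exists_hc (q := q) (F := F) hv (m : ℝ) one_pos
  refine ⟨x, hx1, ?_⟩
  rw [← haP']
  have h1 : (s : ℝ) ^ P ≤ (2 * a) ^ P := pow_le_pow_left₀ (by positivity) hs2 _
  rw [mul_pow] at h1
  have h3 := mul_le_mul_of_nonneg_left h1 hC
  have h4 : 1 ≤ a ^ P := one_le_pow₀ ha1
  have h5 : (C * 2 ^ P + 1) * a ^ P = C * (2 ^ P * a ^ P) + a ^ P := by ring
  rw [h5]
  linarith

end Pool.Agent.J6H38.DIR
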