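import Pool.Agent.J6H38.DIR.Stm2
import Pool.Agent.J6H38.DIR.RayR
import Pool.Agent.J6H38.DIR.Rate
import Pool.Agent.J6H81.NC.Difu
import Pool.Agent.J6H2.DIR.BusR
import Pool.Agent.J6H1.DIR.Uniq
import Pool.Agent.J6H37.DIR.Topo
import Pool.Agent.J6H8.DIR.Core
import Pool.Agent.J6H40.DIR.Betw
import Pool.Agent.J6H51.DIR.PlanA

/-!
# Directions of all geodesic rays: assembly in the canonical model
-/

set_option autoImplicit false

open MeasureTheory ProbabilityTheory Filter Topology
open scoped ENNReal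

namespace Pool.Agent.J6H38.DIR

open Pool.Agent.J6H99.NC

instance : Countable (V 0) := inferInstance

/-- rays in all rational directions -/
theorem rat_rays {q : Par} {F : Measure ℝ} [IsProbabilityMeasure F] (hvar : VarB 0 q F)
    (hfar : FarB 0 q F) (hsm : Smooth q F) : ∀ᵐ ω ∂(PM 0 F), RatRays q F ω := by
  have h1 : ∀ v : V 0, ∀ᵐ ω ∂(PM 0 F), v ≠ 0 → ∀ c : E 0, Supp q F c (vc v) →
      ∃ x : ℕ → V 0, Ray q ω x ∧ Dir q F c x := by
    intro v
    by_cases hv : v = 0
    · exact Eventually.of_forall fun ω h => absurd hv h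
    · have hv' : vc v ≠ 0 := by
        intro h
        apply hv
        funext i
        have := congrFun h i
        simpa [vc] using this
      obtain ⟨c, hc, -, hpos, huniq⟩ := hsm (vc v) hv'
      have hdif : ∀ y' : E 0, y' ≠ 0 → Supp q F c y' → Dif q F c y' := by
        intro y' hy' hs
        obtain ⟨c', _, hd, _, hu⟩ := hsm y' hy'
        rw [hu c hs]
        exact hd
      have hb := Pool.Agent.J6H2.DIR.busr rate Pool.Agent.J6H81.NC.difu 0 q F hvar hfar c (vc v)
        hpos hc hdif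
      filter_upwards [rayr 0 q F hfar c (vc v) hpos hb] with ω hω _ c' hc'
      rw [huniq c' hc']
      exact hω
  filter_upwards [ae_all_iff.2 h1] with ω hω c v hv hc
  exact hω v hv c hc

/-- the directions of the rays from the origin -/
theorem dirs_zero (hplanb : PlanBT) {q : Par} {F : Measure ℝ} [IsProbabilityMeasure F]
    (hvar : VarB 0 q F)
    (hfar : FarB 0 q F) (hsm : Smooth q F) (hat : ∀ t : ℝ, F {s | q.w s = t} = 0) :
    ∀ᵐ ω ∂(PM 0 F), Dirs q F ω (0 : V 0) := by
  filter_upwards [rat_rays hvar hfar hsm, Pool.Agent.J6H1.DIR.uniq 0 q F hat] with ω h1 h2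
  refine ⟨fun x hx => ?_, fun c y hy hc => ?_⟩
  · exact Pool.Agent.J6H51.DIR.plana Pool.Agent.J6H37.DIR.topo Pool.Agent.J6H8.DIR.core
      Pool.Agent.J6H40.DIR.betw q F hvar hfar hsm ω h2 h1 x hx
  · exact hplanb Pool.Agent.J6H37.DIR.topo Pool.Agent.J6H8.DIR.core
      Pool.Agent.J6H40.DIR.betw Pool.Agent.J6H51.DIR.plana q F hvar hfar hsm ω h2 h1 c y hy hc

end Pool.Agent.J6H38.DIR
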