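import Pool.Agent.J6H38.DIR.Conv

/-!
# There are uncountably many exposed directions
-/

set_option autoImplicit false

open MeasureTheory ProbabilityTheory Filter Topology
open scoped ENNReal

namespace Pool.Agent.J6H38.DIR

open Pool.Agent.J6H99.NC Pool.Agent.J6H81.NC Pool.Agent.J6H48.DIR

variable {e : ℕ} {q : Par} {F : Measure ℝ} [IsProbabilityMeasure F]

lemma ne_zero_of_len {z : E e} (hz : len z = 1) : z ≠ 0 := by
  rintro rfl
  simp [len] at hz

lemma dt_self_pos {c : E e} (hc : c ≠ 0) : 0 < dt c c := by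
  obtain ⟨i, hi⟩ := Function.ne_iff.1 hc
  unfold dt
  refine Finset.sum_pos' (fun j _ => mul_self_nonneg _) ⟨i, Finset.mem_univ i, ?_⟩
  exact mul_self_pos.2 hi

lemma exists_functional (hF : FarB e q F) {c0 : E e} (h0 : c0 ≠ 0) :
    ∃ s : ℝ, 0 < s ∧ ∃ y : E e, y ≠ 0 ∧ Supp q F (s • c0) y := by
  have hl0 : 0 < len c0 := len_pos h0
  have hz0 : len ((len c0)⁻¹ • c0) = 1 := by
    rw [len_smul, abs_of_pos (inv_pos.2 hl0), inv_mul_cancel₀ hl0.ne']
  have hLpos : ∀ z ∈ {z : E e | len z = 1}, L q F z ≠ 0 := fun z hz =>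
    (L_pos hF (ne_zero_of_len hz)).ne'
  obtain ⟨y, hy, hmax⟩ := isCompact_len.exists_isMaxOn ⟨_, hz0⟩
    (f := fun z => dt c0 z / L q F z)
    ((continuous_dt c0).continuousOn.div continuous_L.continuousOn hLpos)
  have hy0 : y ≠ 0 := ne_zero_of_len hy
  have hLy : 0 < L q F y := L_pos hF hy0
  have hM : 0 < dt c0 y / L q F y := by
    refine lt_of_lt_of_le ?_ (hmax hz0)
    refine div_pos ?_ (L_pos hF (ne_zero_of_len hz0))
    rw [dt_smul]
    exact mul_pos (inv_pos.2 hl0) (dt_self_pos h0)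
  have hle : ∀ z : E e, dt c0 z ≤ dt c0 y / L q F y * L q F z := by
    intro z
    rcases eq_or_ne z 0 with rfl | hz
    · rw [dt_zero]; exact mul_nonneg hM.le (L_nonneg _)
    · have hl : 0 < len z := len_pos hz
      have h1 : len ((len z)⁻¹ • z) = 1 := by
        rw [len_smul, abs_of_pos (inv_pos.2 hl), inv_mul_cancel₀ hl.ne']
      have h2 : dt c0 ((len z)⁻¹ • z) / L q F ((len z)⁻¹ • z) ≤ dt c0 y / L q F y := hmax h1
      rw [dt_smul, L_smul (inv_pos.2 hl), mul_div_mul_left _ _ (inv_pos.2 hl).ne',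
        div_le_iff₀ (L_pos hF hz)] at h2
      exact h2
  refine ⟨(dt c0 y / L q F y)⁻¹, inv_pos.2 hM, y, hy0, supp_iff.2 ⟨mem_CC fun z => ?_, ?_⟩⟩
  · rw [smul_dt, inv_mul_le_iff₀ hM]
    exact hle z
  · rw [smul_dt]
    have h3 : dt c0 y ≠ 0 := by
      intro h
      rw [h, zero_div] at hM
      exact lt_irrefl _ hM
    field_simp

/-- the gradient of the time constant at the points of the face -/
lemma fderiv_eq (hsm : Smooth q F) {c x : E 0} (hx : x ≠ 0) (hs : Supp q F c x) (z : E 0) :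
    fderiv ℝ (L q F) x z = dt c z := by
  obtain ⟨c', h1, h2, -, h4⟩ := hsm x hx
  have h5 := h4 c hs
  subst h5
  rw [(hasFDerivAt_L h1 h2).fderiv, dtL_apply]

lemma face_eq (hsm : Smooth q F) {c x : E 0} (hx : x ≠ 0) (hs : Supp q F c x) :
    face (L q F : E 0 → ℝ) x = {z : E 0 | len z = 1 ∧ dt c z = L q F z} := by
  ext z
  show (len z = 1 ∧ fderiv ℝ (L q F) x z = L q F z) ↔ _
  rw [fderiv_eq hsm hx hs]
  rfl

lemma vc_rnd_tendsto (p : E e) :
    Tendsto (fun n : ℕ => ((n : ℝ) + 1)⁻¹ • vc (rnd (((n : ℝ) + 1) • p))) atTop (𝓝 p) := by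
  rw [tendsto_pi_nhds]
  intro i
  have h1 : ∀ n : ℕ, |(((n : ℝ) + 1)⁻¹ • vc (rnd (((n : ℝ) + 1) • p))) i - p i| ≤
      1 / ((n : ℝ) + 1) := by
    intro n
    have hn : (0 : ℝ) < (n : ℝ) + 1 := by positivity
    have h2 : (((n : ℝ) + 1)⁻¹ • vc (rnd (((n : ℝ) + 1) • p))) i - p i =
        ((n : ℝ) + 1)⁻¹ * ((⌊((n : ℝ) + 1) * p i⌋ : ℝ) - ((n : ℝ) + 1) * p i) := by
      show ((n : ℝ) + 1)⁻¹ * ((⌊((n : ℝ) + 1) * p i⌋ : ℤ) : ℝ) - p i = _
      field_simp
    rw [h2, abs_mul, abs_of_pos (inv_pos.2 hn), one_div]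
    have h3 : |(⌊((n : ℝ) + 1) * p i⌋ : ℝ) - ((n : ℝ) + 1) * p i| ≤ 1 := by
      rw [abs_le]
      constructor <;> linarith [Int.floor_le (((n : ℝ) + 1) * p i),
        Int.lt_floor_add_one (((n : ℝ) + 1) * p i)]
    calc ((n : ℝ) + 1)⁻¹ * |(⌊((n : ℝ) + 1) * p i⌋ : ℝ) - ((n : ℝ) + 1) * p i|
        ≤ ((n : ℝ) + 1)⁻¹ * 1 := mul_le_mul_of_nonneg_left h3 (inv_pos.2 hn).le
      _ = ((n : ℝ) + 1)⁻¹ := mul_one _
  rw [tendsto_iff_dist_tendsto_zero]
  refine squeeze_zero (fun n => dist_nonneg) (fun n => ?_) tendsto_one_div_add_atTop_nhds_zero_nat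
  rw [Real.dist_eq]
  exact h1 n

lemma cr_add_left (x y z : E 0) : cr (x + y) z = cr x z + cr y z := by
  unfold cr; simp; ring

lemma cr_add_right (x y z : E 0) : cr x (y + z) = cr x y + cr x z := by
  unfold cr; simp; ring

lemma cramer {x z : E 0} (h : cr x z ≠ 0) (w : E 0) :
    w = (cr w z / cr x z) • x + (cr x w / cr x z) • z := by
  have hx : cr x z = x 0 * z 1 - x 1 * z 0 := rfl
  funext i
  show w i = cr w z / cr x z * x i + cr x w / cr x z * z i
  rw [div_mul_eq_mul_div, div_mul_eq_mul_div, ← add_div, eq_div_iff h]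
  have : ∀ i : Fin 2, w i * cr x z = cr w z * x i + cr x w * z i := by
    intro i
    fin_cases i <;> (unfold cr; simp; ring)
  exact this i

/-- two different unit directions with the same functional: there is a lattice direction with this
functional -/
lemma lattice_in_face (hF : FarB 0 q F) {c x z : E 0} (hx : len x = 1) (hz : len z = 1)
    (hxz : z ≠ x) (hsx : Supp q F c x) (hsz : Supp q F c z) :
    ∃ v : V 0, v ≠ 0 ∧ Supp q F c (vc v) := by
  obtain ⟨hc, hcx⟩ := supp_iff.1 hsx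
  obtain ⟨-, hcz⟩ := supp_iff.1 hsz
  have hx0 := ne_zero_of_len hx
  have hz0 := ne_zero_of_len hz
  have hcr : cr x z ≠ 0 := by
    intro h
    -- `z = ± x`
    have h1 : x 0 * z 1 = x 1 * z 0 := by
      have : x 0 * z 1 - x 1 * z 0 = 0 := h
      linarith
    have h2 : x 0 ^ 2 + x 1 ^ 2 = 1 := by
      have := hx
      rw [len, Real.sqrt_eq_one] at this
      simpa [Fin.sum_univ_two] using this
    have h3 : z 0 ^ 2 + z 1 ^ 2 = 1 := by
      have := hz
      rw [len, Real.sqrt_eq_one] at this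
      simpa [Fin.sum_univ_two] using this
    set t : ℝ := x 0 * z 0 + x 1 * z 1 with ht
    have h4 : z = t • x := by
      funext i
      have : ∀ i : Fin 2, z i = t * x i := by
        intro i
        fin_cases i
        · show z 0 = t * x 0
          rw [ht]
          linear_combination (-z 0) * h2 - (x 1) * h1
        · show z 1 = t * x 1
          rw [ht]
          linear_combination (-z 1) * h2 + (x 0) * h1
      exact this i
    have h5 : t ^ 2 = 1 := by
      have h6 : len z = |t| * len x := by rw [h4, len_smul]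
      rw [hx, hz, mul_one] at h6
      rw [← sq_abs, ← h6]; norm_num
    have h6 : 0 < t := by
      have h7 : 0 < dt c z := by rw [hcz]; exact L_pos hF hz0
      have h8 : 0 < dt c x := by rw [hcx]; exact L_pos hF hx0
      rw [h4, dt_smul] at h7
      exact (mul_pos_iff_of_pos_right h8).1 h7
    have h7 : t = 1 := by nlinarith
    rw [h7, one_smul] at h4
    exact hxz h4
  -- lattice points in the open cone
  have hcont1 : Continuous fun w : E 0 => cr w z / cr x z := by
    unfold cr; fun_prop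
  have hcont2 : Continuous fun w : E 0 => cr x w / cr x z := by
    unfold cr; fun_prop
  have hzz : ∀ y : E 0, cr y y = 0 := fun y => by unfold cr; ring
  have e1 : cr (x + z) z / cr x z = 1 := by
    rw [cr_add_left, hzz, add_zero, div_self hcr]
  have e2 : cr x (x + z) / cr x z = 1 := by
    rw [cr_add_right, hzz, zero_add, div_self hcr]
  have ht := vc_rnd_tendsto (e := 0) (x + z)
  have t1 := (hcont1.tendsto (x + z)).comp ht
  have t2 := (hcont2.tendsto (x + z)).comp ht
  rw [e1] at t1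
  rw [e2] at t2
  obtain ⟨n, hn1, hn2⟩ := (((tendsto_order.1 t1).1 0 one_pos).and
    ((tendsto_order.1 t2).1 0 one_pos)).exists
  have hn : (0 : ℝ) < ((n : ℝ) + 1)⁻¹ := by positivity
  set v := rnd (((n : ℝ) + 1) • (x + z)) with hv
  set w : E 0 := ((n : ℝ) + 1)⁻¹ • vc v with hw
  have hn1' : 0 < cr w z / cr x z := hn1
  have hn2' : 0 < cr x w / cr x z := hn2
  have hdec := cramer hcr w
  have hsw : Supp q F c w := by
    refine supp_iff.2 ⟨hc, le_antisymm (dt_le_L hc w) ?_⟩
    have h1 : L q F w ≤ L q F ((cr w z / cr x z) • x) + L q F ((cr x w / cr x z) • z) := by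
      conv_lhs => rw [hdec]
      exact L_add _ _
    rw [L_smul hn1', L_smul hn2', ← hcx, ← hcz] at h1
    have h2 : dt c w = cr w z / cr x z * dt c x + cr x w / cr x z * dt c z := by
      conv_lhs => rw [hdec]
      rw [dt_add, dt_smul, dt_smul]
    linarith
  have hw0 : w ≠ 0 := by
    intro h
    rw [h] at hn1'
    have : cr (0 : E 0) z = 0 := by unfold cr; simp
    rw [this, zero_div] at hn1'
    exact lt_irrefl _ hn1'
  refine ⟨v, fun h => hw0 ?_, ?_⟩
  · rw [hw, h, vc_zero, smul_zero]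
  · have h1 := supp_smul (t := (n : ℝ) + 1) (by positivity) hsw
    rw [hw, smul_smul, mul_inv_cancel₀ (by positivity), one_smul] at h1
    exact h1

theorem uncountable_exposed (hF : FarB 0 q F) (hsm : Smooth q F) :
    ¬ {x : E 0 | len x = 1 ∧ face (L q F : E 0 → ℝ) x = {x}}.Countable := by
  intro hD
  set D := {x : E 0 | len x = 1 ∧ face (L q F : E 0 → ℝ) x = {x}} with hDdef
  set Φ : E 0 → E 0 := fun x i => fderiv ℝ (L q F : E 0 → ℝ) x (Pi.single i 1) with hΦ
  have hΦc : ∀ c x : E 0, x ≠ 0 → Supp q F c x → Φ x = c := by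
    intro c x hx hs
    funext i
    show fderiv ℝ (L q F : E 0 → ℝ) x (Pi.single i 1) = c i
    rw [fderiv_eq hsm hx hs]
    simp [dt, Pi.single_apply]
  set C := {c : E 0 | ∃ y : E 0, y ≠ 0 ∧ Supp q F c y} with hC
  have hCsub : C ⊆ Φ '' D ∪ Φ '' (Set.range (vc : V 0 → E 0)) := by
    rintro c ⟨y, hy, hs⟩
    have hl : 0 < len y := len_pos hy
    set x : E 0 := (len y)⁻¹ • y with hx
    have hlx : len x = 1 := by
      rw [hx, len_smul, abs_of_pos (inv_pos.2 hl), inv_mul_cancel₀ hl.ne']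
    have hsx : Supp q F c x := supp_smul (inv_pos.2 hl) hs
    have hx0 := ne_zero_of_len hlx
    by_cases hf : face (L q F : E 0 → ℝ) x = {x}
    · exact Or.inl ⟨x, ⟨hlx, hf⟩, hΦc c x hx0 hsx⟩
    · right
      have hmem : x ∈ face (L q F : E 0 → ℝ) x := by
        rw [face_eq hsm hx0 hsx]
        exact ⟨hlx, (supp_iff.1 hsx).2⟩
      have : ∃ z ∈ face (L q F : E 0 → ℝ) x, z ≠ x := by
        by_contra hcon
        push Not at hcon
        exact hf (Set.eq_singleton_iff_unique_mem.2 ⟨hmem, hcon⟩)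
      obtain ⟨z, hz, hzx⟩ := this
      rw [face_eq hsm hx0 hsx] at hz
      have hsz : Supp q F c z := supp_iff.2 ⟨(supp_iff.1 hsx).1, hz.2⟩
      obtain ⟨v, hv, hsv⟩ := lattice_in_face hF hlx hz.1 hzx hsx hsz
      exact ⟨vc v, ⟨v, rfl⟩, hΦc c _ (vc_ne_zero hv) hsv⟩
  have hCc : C.Countable :=
    ((hD.image Φ).union ((Set.countable_range _).image Φ)).mono hCsub
  -- an injection of the real numbers
  have hex : ∀ θ : ℝ, ∃ s : ℝ, 0 < s ∧ s • (![1, θ] : E 0) ∈ C := by
    intro θ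
    obtain ⟨s, hs, y, hy, hsup⟩ := exists_functional hF (c0 := (![1, θ] : E 0)) (by
      intro h
      have := congrFun h 0
      simp at this)
    exact ⟨s, hs, y, hy, hsup⟩
  choose s hs hsC using hex
  have hinj : Function.Injective fun θ : ℝ => s θ • (![1, θ] : E 0) := by
    intro θ θ' h
    have h0 : s θ * 1 = s θ' * 1 := congrFun h 0
    have h1 : s θ * θ = s θ' * θ' := congrFun h 1
    rw [mul_one, mul_one] at h0
    rw [h0] at h1
    exact mul_left_cancel₀ (hs θ').ne' h1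
  have hpre := hCc.preimage_of_injOn (f := fun θ : ℝ => s θ • (![1, θ] : E 0)) hinj.injOn
  have huniv : (fun θ : ℝ => s θ • (![1, θ] : E 0)) ⁻¹' C = Set.univ :=
    Set.eq_univ_of_forall hsC
  rw [huniv] at hpre
  exact Cardinal.not_countable_real hpre

end Pool.Agent.J6H38.DIR
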